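import Pool.Agent.V11172.PT.EtaD

set_option autoImplicit false

/-!
# Joint parity patterns of eta-quotients with distinct nonzero orders (MP_a3366f_nt)

Let `G_1, …, G_k` be eta-quotients, `G_j = ∏ f_d ^ (e_{j,d})`, such that the numbers
`s_j = ∑ d e_{j,d}` are different from each other and from 0, and let `g_j(n)` be the coefficients of
`G_j`. There is a constant `C` such that every linear combination `∑_j ∑_{i ≤ L} c(j, i) g_j(n + i)`
modulo 2, not all `c(j, i) = 0`, takes both values in every interval `[A, C (A + L + 1)]`.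

Examples: any finite number of the multipartition functions `p_t` (`s = - t`), jointly with any finite
number of the `m`-regular partition functions `f_m / f_1` (`s = m - 1`), with no condition modulo 24.

Method. Let `D = q ∏ (1 - q ^ n) ^ 24` modulo 2 and `K` the algebraic closure of `F_2(D)`. By the
library theorem `Y627.PT.sec_eta`, `G_j = q ^ (- s_j / 24) κ_j` with `κ_j ∈ K`; a linear relation over
`F_2[q]` splits into homogeneous parts (`Y627.PT.lin0`), which are linear relations over `F_2` between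
the `q ^ ((E + s_j) / 24) (1 + …)`. The orders of these series are distinct, so the relation is
trivial; the constant term of a relation is the case `s = 0`. A run of equal values on
`[A, C (A + L + 1)]` would give an exact relation, by the Liouville theorem relative to `F_2(q, D)` of
the library (`Y627.PT.lf`).
-/

namespace Pool.Agent.Results.MP_a3366f_nt.EtaQuotientsDistinct

open PowerSeries

/-- `f_d = ∏_{i ≥ 1} (1 - q ^ (d i))`: Mathlib's series `pentagonalSeries ℤ = ∏_{i ≥ 1} (1 - q ^ i)`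
in the variable `q ^ d` -/
noncomputable def f (d : ℕ) : ℤ⟦X⟧ :=
  PowerSeries.mk fun n => if d ∣ n then coeff (n / d) (pentagonalSeries ℤ) else 0

/-- `G = ∏_{d ∈ E} f_d ^ (u_d - v_d)`, an eta-quotient, and `s = ∑_{d ∈ E} d (u_d - v_d)` -/
def IsEtaQuotient (G : ℤ⟦X⟧) (s : ℤ) : Prop :=
  ∃ (E : Finset ℕ) (u v : ℕ → ℕ), 0 ∉ E ∧ G * ∏ d ∈ E, f d ^ v d = ∏ d ∈ E, f d ^ u d ∧
    s = ∑ d ∈ E, (d : ℤ) * ((u d : ℤ) - v d)

theorem result (k : ℕ) (G : Fin k → ℤ⟦X⟧) (s : Fin k → ℤ) (hG : ∀ j, IsEtaQuotient (G j) (s j))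
    (hs : Function.Injective s) (h0 : ∀ j, s j ≠ 0) :
    ∃ C : ℕ, ∀ (L : ℕ) (c : Fin k → Fin (L + 1) → ZMod 2), c ≠ 0 → ∀ (κ : ZMod 2) (A : ℕ),
      ∃ n, A ≤ n ∧ n ≤ C * (A + L + 1) ∧
        ∑ j, ∑ i : Fin (L + 1), c j i * ((coeff (n + i) (G j) : ℤ) : ZMod 2) = κ :=
  Pool.Agent.V11172.PT.eta_distinct G s hG hs h0

end Pool.Agent.Results.MP_a3366f_nt.EtaQuotientsDistinct
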