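import Pool.Agent.V11172.PT.Cnt3

set_option autoImplicit false

/-!
# Even values of linear patterns of multipartition functions (MP_a3366f_nt)

Let `T` be a finite set of odd positive integers which are all `≡ 1` or all `≡ 2 (mod 3)`, and let

  `s(n) = ∑_{t ∈ T} ∑_{l ≤ L} c(t, l) p_t(n + l)`

be any linear pattern modulo 2 in the multipartition functions `p_t`. For every `K`, every `b` and
every residue `ρ` modulo `2 ^ b`, at least `K √x` of the integers `n ≤ x` with `n ≡ ρ (mod 2 ^ b)`
satisfy `s(n) = 0`, for all large `x`.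

Method. Let `M = 2 ^ i > t` with `M ≡ t (mod 3)` and `m = (M - t) / 3`, which is odd. The sum of the
`p_t(n - M g_j)` over the generalised pentagonal numbers `M g_j ≤ n` is modulo 2 the coefficient of
`q ^ (8 n + m)` in the power `D ^ m` of the discriminant. All Hecke operators `T_p` lower the
Nicolas-Serre filtration (starting file `H307R2/OP/FQ`), so this coefficient vanishes when `8 n + m`
has sufficiently many odd primes as exact divisors; by Turán's inequality this holds for almost all
`n`, simultaneously for the shifts `n + l` and all `t ∈ T`. No number `M g_j` lies in `(n, n + L]` for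
almost all `n`, so the sum of the `s(n - M g_j)` over `M g_j ≤ n` vanishes. If the number of `j` is odd,
which happens for at least one eighth of the `n` in every residue class modulo `2 ^ b`, one of the
`s(n - M g_j)` is 0. There are at most `3 √(x / M)` numbers `j`, so `s` has at least a constant times
`√(x M)` zeros, and `M` is arbitrary.
-/

namespace Pool.Agent.Results.MP_a3366f_nt.EvenPatterns

/-- the number of `t`-multipartitions of `n`: the coefficient of `q ^ n` in `∏ 1 / (1 - q ^ i) ^ t` -/
def multipartitions (t n : ℕ) : ℕ :=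
  ∑ x ∈ Finset.Nat.antidiagonalTuple t n, ∏ i, Fintype.card (Nat.Partition (x i))

theorem result (T : Finset ℕ) (e : ℕ) (he : e = 1 ∨ e = 2) (hT : ∀ t ∈ T, Odd t ∧ t % 3 = e)
    (L : ℕ) (c : ℕ → Fin (L + 1) → ZMod 2) (b ρ : ℕ) (K : ℝ) :
    ∃ x0 : ℕ, ∀ x : ℕ, x0 ≤ x → K * Real.sqrt x ≤ (((Finset.range (x + 1)).filter fun n =>
      n % 2 ^ b = ρ % 2 ^ b ∧
        ∑ t ∈ T, ∑ l : Fin (L + 1), c t l * (multipartitions t (n + l) : ZMod 2) = 0).card : ℝ) := by
  obtain ⟨x0, h0⟩ := Pool.Agent.V11172.PT.main_even T e he hT L c b ρ K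
  refine ⟨x0, fun x hx => (h0 x hx).trans (le_of_eq ?_)⟩
  congr 2
  refine Finset.filter_congr fun n _ => ?_
  unfold Pool.Agent.V11172.PT.pat'
  have h : ∀ t l : ℕ, PowerSeries.coeff (n + l) (Pool.Agent.TH693.PP.P ^ t) =
      (multipartitions t (n + l) : ZMod 2) := fun t l =>
    Pool.Agent.H413R3.Part.coeff_pow_eq t (n + l)
  simp only [h]

end Pool.Agent.Results.MP_a3366f_nt.EvenPatterns
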