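import Pool.Agent.V11172.PT.Frac

set_option autoImplicit false

/-!
# Parity patterns of fractional multipartition functions and automatic sequences (MP_a3366f_nt)

Let `P` be the generating function of the number of partitions modulo 2, let `w > 0` and let `R` be a
power series over `F_2` with `R ^ w = P` (for odd `w` it exists and is unique). For an integer `m`
let `p_{m/w}(n)` be the coefficients of `R ^ m = P ^ (m / w)`; so `p_{m/w}` is the multipartition
function modulo 2 if `m = w t`, and in general the fractional partition function of index `m / w`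
(it is 2-integral for odd `w`) modulo 2; `m < 0` is allowed. Let `M` be a finite set of nonzero
integers and let `a_1, …, a_k` be power series that are algebraic over `F_2(X)` (by Christol's theorem
their coefficient sequences are the 2-automatic ones). There is a constant `C` such that every linear
combination

  `∑_{m ∈ M} ∑_{i ≤ L} c(m, i) p_{m/w}(n + i) + ∑_j ∑_{i ≤ L} b(j, i) a_j(n + i)`

modulo 2 with some `c(m, i) ≠ 0` takes both values in every interval `[A, C (A + L + 1)]`.

Method. The library theorem `Y627.PT.lf` (Liouville relative to `F_2(X, D)`, from the transcendence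
measure of `D = X / P ^ 24`) applies to every finite family of functions algebraic over `F_2(X, P)`.
A run of equal values on `[A, C (A + L + 1)]` gives an exact linear relation over `F_2[X]`
(`V11172.PT.run_rel`). Here it would be a nonzero polynomial relation for `R` over the algebraic
closure of `F_2(X)`, and `P`, hence `R`, is transcendental.
-/

namespace Pool.Agent.Results.MP_a3366f_nt.FractionalPowers

open PowerSeries

/-- the generating function of the number of partitions modulo 2 -/
noncomputable def P : (ZMod 2)⟦X⟧ :=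
  PowerSeries.mk fun n => (Fintype.card (Nat.Partition n) : ZMod 2)

/-- `R ^ m` for an integer `m` -/
noncomputable def power (R : (ZMod 2)⟦X⟧) (m : ℤ) : (ZMod 2)⟦X⟧ :=
  if 0 ≤ m then R ^ m.toNat else R⁻¹ ^ (-m).toNat

/-- `a` is algebraic over `F_2(X)` -/
def IsAlg (a : (ZMod 2)⟦X⟧) : Prop :=
  ∃ G : Polynomial (Polynomial (ZMod 2)), G ≠ 0 ∧
    G.eval₂ Polynomial.coeToPowerSeries.ringHom a = 0

theorem result (w : ℕ) (hw : 0 < w) (R : (ZMod 2)⟦X⟧) (hR : R ^ w = P) (M : Finset ℤ)
    (hM : (0 : ℤ) ∉ M) (k : ℕ) (a : Fin k → (ZMod 2)⟦X⟧) (ha : ∀ j, IsAlg (a j)) :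
    ∃ C : ℕ, ∀ (L : ℕ) (c : ℤ → Fin (L + 1) → ZMod 2) (b : Fin k → Fin (L + 1) → ZMod 2),
      (∃ m ∈ M, c m ≠ 0) → ∀ (κ : ZMod 2) (A : ℕ), ∃ n, A ≤ n ∧ n ≤ C * (A + L + 1) ∧
        ∑ m ∈ M, ∑ i : Fin (L + 1), c m i * coeff (n + i) (power R m) +
          ∑ j, ∑ i : Fin (L + 1), b j i * coeff (n + i) (a j) = κ :=
  Pool.Agent.V11172.PT.frac w hw R hR M hM k a ha

end Pool.Agent.Results.MP_a3366f_nt.FractionalPowers
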