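import Pool.Agent.V11172.PT.AllT
import Pool.Agent.Y627.PT.Eta

set_option autoImplicit false

/-!
# Parity of multipartition functions against eta-quotients of nonnegative order and functions
algebraic over `F_2(D)` (MP_a3366f_nt)

Let `T` be a finite set of positive integers and `p_t` the `t`-multipartition function, `t ∈ T`. Let
`h_1, …, h_k` be power series over `F_2` which are algebraic over `F_2(D)`, where
`D = ∑ X ^ ((2 n + 1) ^ 2)` is the reduction of the discriminant modulo 2 (for instance theta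
series), and let `G_1, …, G_k'` be eta-quotients `∏ f_d ^ (e_d)` with `∑ d e_d ≥ 0` (for instance
`f_1 ^ r`, the `ℓ`-regular partitions `f_ℓ / f_1`, or `f_2 ^ 2 / f_1`), with coefficients `g_j(n)`.
There is a constant `C` such that every linear combination

  `∑_{t ∈ T} ∑_{i ≤ L} c(t, i) p_t(n + i) + ∑_j ∑_{i ≤ L} b(j, i) h_j(n + i)
    + ∑_j ∑_{i ≤ L} b'(j, i) g_j(n + i)`

modulo 2 with some `c(t, i) ≠ 0` takes both values in every interval `[A, C (A + L + 1)]`.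

Method. Let `K` be the algebraic closure of `F_2(D)`. All functions are of the form
`X ^ (e / 24) κ`, `κ ∈ K` (for eta-quotients by the library theorem `Y627.PT.sec_eta`), with `e = t`
for `P ^ t` and `e = 0`, `e = - ∑ d e_d ≤ 0` for the others. A relation over `F_2[X]` splits into its
homogeneous parts (`Y627.PT.lin0`), and in a homogeneous part the `P ^ t` with the largest `t` has the
smallest order. A run of equal values on `[A, C (A + L + 1)]` would give an exact linear relation over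
`F_2[X]`, by the Liouville theorem relative to `F_2(X, D)` of the library (`Y627.PT.lf`).
-/

namespace Pool.Agent.Results.MP_a3366f_nt.MultipartitionsAgainstEta

open PowerSeries

/-- the number of `t`-multipartitions of `n`: the coefficient of `q ^ n` in `∏ 1 / (1 - q ^ i) ^ t` -/
def multipartitions (t n : ℕ) : ℕ :=
  ∑ x ∈ Finset.Nat.antidiagonalTuple t n, ∏ i, Fintype.card (Nat.Partition (x i))

open Classical in
/-- `D = ∑ X ^ ((2 i + 1) ^ 2)` -/
noncomputable def D : (ZMod 2)⟦X⟧ :=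
  PowerSeries.mk fun n => if ∃ i : ℕ, n = (2 * i + 1) ^ 2 then 1 else 0

/-- `h` is algebraic over `F_2(D)`: `G(D, h) = 0` for a nonzero polynomial `G` over `F_2` -/
def IsAlgD (h : (ZMod 2)⟦X⟧) : Prop :=
  ∃ G : Polynomial (Polynomial (ZMod 2)), G ≠ 0 ∧
    G.eval₂ ((Polynomial.aeval D : Polynomial (ZMod 2) →ₐ[ZMod 2] (ZMod 2)⟦X⟧) :
      Polynomial (ZMod 2) →+* (ZMod 2)⟦X⟧) h = 0

/-- `f_d = ∏_{i ≥ 1} (1 - q ^ (d i))`: Mathlib's series `pentagonalSeries ℤ = ∏_{i ≥ 1} (1 - q ^ i)`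
in the variable `q ^ d` -/
noncomputable def f (d : ℕ) : ℤ⟦X⟧ :=
  PowerSeries.mk fun n => if d ∣ n then coeff (n / d) (pentagonalSeries ℤ) else 0

/-- `G = ∏_{d ∈ E} f_d ^ (u_d - v_d)`, an eta-quotient, and `s = ∑_{d ∈ E} d (u_d - v_d)` -/
def IsEtaQuotient (G : ℤ⟦X⟧) (s : ℤ) : Prop :=
  ∃ (E : Finset ℕ) (u v : ℕ → ℕ), 0 ∉ E ∧ G * ∏ d ∈ E, f d ^ v d = ∏ d ∈ E, f d ^ u d ∧
    s = ∑ d ∈ E, (d : ℤ) * ((u d : ℤ) - v d)

theorem result (T : Finset ℕ) (hT : 0 ∉ T) (k : ℕ) (h : Fin k → (ZMod 2)⟦X⟧)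
    (hh : ∀ j, IsAlgD (h j)) (k' : ℕ) (G : Fin k' → ℤ⟦X⟧) (s : Fin k' → ℤ)
    (hG : ∀ j, IsEtaQuotient (G j) (s j)) (hs : ∀ j, 0 ≤ s j) :
    ∃ C : ℕ, ∀ (L : ℕ) (c : ℕ → Fin (L + 1) → ZMod 2) (b : Fin k → Fin (L + 1) → ZMod 2)
      (b' : Fin k' → Fin (L + 1) → ZMod 2), (∃ t ∈ T, c t ≠ 0) → ∀ (κ : ZMod 2) (A : ℕ),
      ∃ n, A ≤ n ∧ n ≤ C * (A + L + 1) ∧
        ∑ t ∈ T, ∑ i : Fin (L + 1), c t i * (multipartitions t (n + i) : ZMod 2) +
          ∑ j, ∑ i : Fin (L + 1), b j i * coeff (n + i) (h j) +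
          ∑ j, ∑ i : Fin (L + 1), b' j i * ((coeff (n + i) (G j) : ℤ) : ZMod 2) = κ := by
  have hD : D = Pool.Agent.H397R2.PP.Db := Pool.Agent.H397R2.PP.Db_eq_theta.symm
  have h1 : ∀ j, Pool.Agent.Y627.PT.AZ (Pool.Agent.TH693.QQ.T5.jj (h j)) (-((0 : ℕ) : ℤ)) := by
    intro j
    obtain ⟨Q, hQ, hQ2⟩ := hh j
    rw [hD] at hQ2
    rw [Nat.cast_zero, neg_zero]
    exact Pool.Agent.Y627.PT.az_cl (Pool.Agent.V11172.PT.cl_of_algD hQ hQ2)
  have h2 : ∀ j, Pool.Agent.Y627.PT.AZ (Pool.Agent.TH693.QQ.T5.jj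
      ((G j).map (Int.castRingHom (ZMod 2)))) (-((s j).toNat : ℤ)) := by
    intro j
    rw [Int.toNat_of_nonneg (hs j)]
    obtain ⟨E, u, v, hE, hrel, hsE⟩ := hG j
    have h3 := Pool.Agent.Y627.PT.sec_eta E u v hE (G j) hrel 1 0 one_pos
    rw [Pool.Agent.Y627.PT.proj_one, ← hsE] at h3
    exact h3
  obtain ⟨C, hC⟩ := Pool.Agent.V11172.PT.allT T hT
    (J := Fin k ⊕ Fin k') (Sum.elim h fun j => (G j).map (Int.castRingHom (ZMod 2)))
    (Sum.elim (fun _ => 0) fun j => (s j).toNat) (by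
      rintro (j | j)
      · exact h1 j
      · exact h2 j)
  refine ⟨C, fun L c b b' hc κ A => ?_⟩
  obtain ⟨n, e1, e2, e3⟩ := hC L c (Sum.elim b b') hc κ A
  refine ⟨n, e1, e2, ?_⟩
  rw [← e3, Fintype.sum_sum_type, add_assoc]
  congr 1
  refine Finset.sum_congr rfl fun t _ => Finset.sum_congr rfl fun i _ => ?_
  rw [Pool.Agent.TH693.QQ.coeff_P_pow]
  rfl

end Pool.Agent.Results.MP_a3366f_nt.MultipartitionsAgainstEta
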